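import Pool.Agent.R441.Num

/-!
The second congruence of the question (the case `5 ∤ A B`) has the wrong sign: it fails for `p = 7`,
even modulo `p`, while the congruence with the opposite sign holds modulo `p²`.
-/

set_option autoImplicit false

namespace Pool.Agent.Results.MP_7d0087_nt.SecondCaseFails

open Pool.Agent.R441 (CongMod not_congMod)

/-- `binom(a,k) = a (a-1) ⋯ (a-k+1) / k!` -/
def bc (a : ℚ) (k : ℕ) : ℚ := (∏ j ∈ Finset.range k, (a - j)) / k.factorial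

/-- `S_p = ∑_{k<p} binom(-1/2,k) binom(-1/3,k) / (-4)^k` -/
def S (p : ℕ) : ℚ := ∑ k ∈ Finset.range p, bc (-1 / 2) k * bc (-1 / 3) k / (-4) ^ k

/-- the hypotheses of the second case: `p = A² + 3B²`, `A ≡ 1 (mod 3)`, `5 ∤ B` and `A/B ≡ -1` or
`-2` modulo `5` -/
def CaseTwo (p : ℕ) (A B : ℤ) : Prop :=
  (p : ℤ) = A ^ 2 + 3 * B ^ 2 ∧ A % 3 = 1 ∧ ¬ 5 ∣ B ∧ (5 ∣ A + B ∨ 5 ∣ A + 2 * B)

/-- the three statements of the question for the prime `p` -/
def QOne (p : ℕ) : Prop :=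
  (p % 3 = 1 → ∀ A B : ℤ, (p : ℤ) = A ^ 2 + 3 * B ^ 2 → A % 3 = 1 → 5 ∣ A * B →
    CongMod p 2 (S p) (jacobiSym p 5 * (2 * A - p / (2 * A)))) ∧
  (p % 3 = 1 → ∀ A B : ℤ, CaseTwo p A B →
    CongMod p 2 (S p) (jacobiSym p 5 * ((A + 3 * B) - p / (A + 3 * B)))) ∧
  (p % 3 = 2 → CongMod p 1 (S p) 0)

/-- For `p = 7 = (-2)² + 3 · 1²` the question has the answer no: `A = -2`, `B = 1` satisfy the
hypotheses of the second case, the stated congruence fails for all such `A`, `B`, even modulo `p`,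
and the congruence with the opposite sign holds modulo `p²`. -/
theorem result : ∃ p : ℕ, p = 7 ∧ p.Prime ∧ 5 < p ∧ p % 3 = 1 ∧ ¬ QOne p ∧
    (∃ A B : ℤ, CaseTwo p A B) ∧
    ∀ A B : ℤ, CaseTwo p A B →
      ¬ CongMod p 1 (S p) (jacobiSym p 5 * ((A + 3 * B) - p / (A + 3 * B))) ∧
      CongMod p 2 (S p) (-(jacobiSym p 5 * ((A + 3 * B) - p / (A + 3 * B)))) := by
  have hj : jacobiSym ((7 : ℕ) : ℤ) 5 = -1 := by norm_num
  have hc : CaseTwo 7 (-2) 1 := by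
    refine ⟨by norm_num, by norm_num, by norm_num, by norm_num⟩
  have huniq : ∀ A B : ℤ, CaseTwo 7 A B → A = -2 ∧ B = 1 := by
    rintro A B ⟨h, h3, h5, h6⟩
    have hA : A ^ 2 ≤ 7 := by push_cast at h; nlinarith [sq_nonneg B]
    have hB : 3 * B ^ 2 ≤ 7 := by push_cast at h; nlinarith [sq_nonneg A]
    have hA1 : A ≤ 2 := by nlinarith
    have hA2 : -2 ≤ A := by nlinarith
    have hB1 : B ≤ 1 := by nlinarith
    have hB2 : -1 ≤ B := by nlinarith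
    interval_cases A <;> interval_cases B <;> simp_all
  have hv : (-1 : ℚ) * (((-2 : ℤ) : ℚ) + 3 * ((1 : ℤ) : ℚ) - (7 : ℕ) / (((-2 : ℤ) : ℚ) + 3 * ((1 : ℤ) : ℚ))) = 6 := by
    norm_num
  have h2 : ∀ A B : ℤ, CaseTwo 7 A B →
      ¬ CongMod 7 1 (S 7) (jacobiSym (7 : ℕ) 5 * ((A + 3 * B) - (7 : ℕ) / (A + 3 * B))) := by
    intro A B h
    obtain ⟨rfl, rfl⟩ := huniq A B h
    rw [hj]
    push_cast at hv ⊢
    rw [hv]
    exact not_congMod (by norm_num) (by decide +kernel)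
  refine ⟨7, rfl, by norm_num, by norm_num, by norm_num, ?_, ⟨-2, 1, hc⟩, ?_⟩
  · rintro ⟨-, h, -⟩
    obtain ⟨r, hr, h4⟩ := h (by norm_num) (-2) 1 hc
    apply h2 (-2) 1 hc
    refine ⟨7 * r, ?_, by rw [h4]; ring⟩
    intro hd
    apply hr
    refine hd.trans ?_
    have := Rat.mul_den_dvd 7 r
    simpa using this
  · intro A B h
    refine ⟨h2 A B h, ?_⟩
    obtain ⟨rfl, rfl⟩ := huniq A B h
    rw [hj]
    push_cast at hv ⊢
    rw [hv]
    refine ⟨(S 7 - -6) / 7 ^ 2, by decide +kernel, by push_cast; ring⟩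

end Pool.Agent.Results.MP_7d0087_nt.SecondCaseFails
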